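import Pool.Agent.H76.MX.Rc
import Pool.Agent.H36.MX.Fi

/-!
Ar2 (project MP_78d38b_OD): reciprocity for the classes which satisfy the local conditions outside the special places.
The local conditions only enter through the solubility of the conic `al x ^ 2 + be y ^ 2 = 1`.
-/

set_option autoImplicit false
set_option linter.unusedSectionVars false
open scoped Classical

open WithZero NumberField IsDedekindDomain H38RT
open H38T1 (SC sc scu rep eo la si Pri OddP tp unif ka)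
open H76PP H36MX H76MQ H76MX

namespace H76OD

variable {K L : Type} [Field K] [NumberField K] [Field L] [NumberField L] [Algebra K L]

/-- The constant at a special place. -/
noncomputable def nuw (K : Type) {L : Type} [Field K] [NumberField K] [Field L] [NumberField L] [Algebra K L]
    (a : K) (θ : L) (w : HeightOneSpectrum (𝓞 L)) : ZMod 2 :=
  la w (sc (3 * θ ^ 2 + algebraMap K L a))

/-- The conic of every representative of `c` is soluble at `v`. -/
def ConAt {a b : K} {θ : L} (h : Cub K L a b θ) (v : HeightOneSpectrum (𝓞 K)) (c : SC L) : Prop :=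
  ∀ y : L, y ≠ 0 → sc y = c → al h y ≠ 0 → be h y ≠ 0 → hsv v (al h y) (be h y) = 0

/-- The same at a real place. -/
def ConR {a b : K} {θ : L} (h : Cub K L a b θ) (s : K →+* ℝ) (c : SC L) : Prop :=
  ∀ y : L, y ≠ 0 → sc y = c → al h y ≠ 0 → be h y ≠ 0 → ¬ (s (al h y) < 0 ∧ s (be h y) < 0)

theorem rec_T {A B : 𝓞 K} {θ : L} (h : Cub K L (A : K) (B : K) θ) (hR : HR2 K L A B θ)
    {T : Finset (HeightOneSpectrum (𝓞 K))} {t₁ t₂ : HeightOneSpectrum (𝓞 K) → HeightOneSpectrum (𝓞 L)}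
    (ho : ∀ v ∈ T, OddP v) (hd : ∀ v ∈ T, dsc A B ∉ v.asIdeal ^ 2)
    (hT : ∀ v ∈ T, TwT K (A : K) θ v (t₁ v) (t₂ v)) {c : SC L}
    (hc : scm (Algebra.norm K : L →* K) c = 0) (hv : ∀ v, v ∉ T → ConAt h v c)
    (hr : ∀ s : K →+* ℝ, ConR h s c) :
    ∑ v ∈ T, eo (t₂ v) c * (la (t₁ v) c + nuw K (A : K) θ (t₁ v)) = 0 := by
  obtain ⟨y, hy, hyc⟩ := H38T1.sc_surj c
  have hN : IsSquare (Algebra.norm K y) := by
    have h1 := scm_sc (Algebra.norm K : L →* K) hy
    rw [hyc, hc] at h1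
    exact (H38T1.sc_eq_zero (scm_ne (Algebra.norm K : L →* K) hy)).1 h1.symm
  obtain ⟨Y, hY, ha, hb⟩ := exists_YX h hy
  obtain ⟨y', hy'⟩ : ∃ y', y' = y * Y ^ 2 := ⟨_, rfl⟩
  have hy0 : y' ≠ 0 := by
    rw [hy']
    exact mul_ne_zero hy (pow_ne_zero 2 hY)
  have hsc : sc y' = c := by
    rw [hy', H38T1.sc_mul hy (pow_ne_zero 2 hY), H54MT.sc_sq hY, add_zero, hyc]
  have hN' : IsSquare (Algebra.norm K y') := by
    obtain ⟨r, hr⟩ := hN
    refine ⟨r * Algebra.norm K Y, ?_⟩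
    rw [hy', map_mul, map_pow, hr]
    ring
  rw [← hy'] at ha hb
  have hrec := (hilb K).prod (al h y') (be h y') ha hb
  unfold BB at hrec
  have hreal : ∑ w : K →+* ℝ, si w (sc (al h y')) * si w (sc (be h y')) = 0 := by
    refine Finset.sum_eq_zero fun s _ => ?_
    have h1 := hr s y' hy0 hsc ha hb
    rw [H38T1.si_sc s hb, H38T1.si_sc s ha]
    unfold sw
    by_cases h2 : s (al h y') < 0
    · have h3 : ¬ s (be h y') < 0 := fun h3 => h1 ⟨h2, h3⟩
      rw [if_neg h3, mul_zero]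
    · rw [if_neg h2, zero_mul]
  rw [hreal, add_zero] at hrec
  have hsupp : (Function.support fun v => hsv v (al h y') (be h y')) ⊆ ↑T := by
    intro v hv'
    by_contra h1
    exact hv' (hv v (fun h2 => h1 (Finset.mem_coe.2 h2)) y' hy0 hsc ha hb)
  rw [finsum_eq_sum_of_support_subset _ hsupp] at hrec
  rw [← hrec]
  refine Finset.sum_congr rfl fun v hvT => ?_
  have hvo := ho v hvT
  have hTT := hT v hvT
  have hz : ∀ x : ZMod 2, x = 0 ∨ x = 1 := by decide
  rw [(hilb K).odd v hvo _ _ ha hb]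
  rcases hz (eo (t₂ v) c) with h0 | h0
  · rw [h0, zero_mul]
    symm
    refine conic_CL h hR hvo (hd v hvT) hy0 hN' ha hb ?_
    intro w hw
    rcases hTT.only w hw with hww | hww
    · rw [hww]
      exact gg_eo1 hR hvo hTT.toTwG h.finrank hy0 hN'
    · rw [hww, hsc]
      exact h0
  · rw [h0, one_mul]
    have h1 := conic_CT h hR hvo hTT hy0 hN' ha hb (by rw [hsc]; exact h0)
    rw [h1, hsc]
    rfl

/-- The corrected Legendre class at a special place. -/
noncomputable def uu (K : Type) {L : Type} [Field K] [NumberField K] [Field L] [NumberField L] [Algebra K L]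
    (a : K) (θ : L) (w₁ w₂ : HeightOneSpectrum (𝓞 L)) (c : SC L) : ZMod 2 :=
  la w₁ c + nuw K a θ w₁ * eo w₂ c

theorem rec_T2 {A B : 𝓞 K} {θ : L} (h : Cub K L (A : K) (B : K) θ) (hR : HR2 K L A B θ)
    {T : Finset (HeightOneSpectrum (𝓞 K))} {t₁ t₂ : HeightOneSpectrum (𝓞 K) → HeightOneSpectrum (𝓞 L)}
    (ho : ∀ v ∈ T, OddP v) (hd : ∀ v ∈ T, dsc A B ∉ v.asIdeal ^ 2)
    (hT : ∀ v ∈ T, TwT K (A : K) θ v (t₁ v) (t₂ v)) {c c' : SC L}
    (hc : scm (Algebra.norm K : L →* K) c = 0) (hc' : scm (Algebra.norm K : L →* K) c' = 0)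
    (hv : ∀ v, v ∉ T → ConAt h v c ∧ ConAt h v c' ∧ ConAt h v (c + c'))
    (hr : ∀ s : K →+* ℝ, ConR h s c ∧ ConR h s c' ∧ ConR h s (c + c')) :
    ∑ v ∈ T, (eo (t₂ v) c * uu K (A : K) θ (t₁ v) (t₂ v) c' +
      uu K (A : K) θ (t₁ v) (t₂ v) c * eo (t₂ v) c') = 0 := by
  have h1 := rec_T h hR ho hd hT hc (fun v h1 => (hv v h1).1) (fun s => (hr s).1)
  have h2 := rec_T h hR ho hd hT hc' (fun v h1 => (hv v h1).2.1) (fun s => (hr s).2.1)
  have h3 := rec_T h hR ho hd hT (c := c + c') (by rw [map_add, hc, hc', add_zero])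
    (fun v h1 => (hv v h1).2.2) (fun s => (hr s).2.2)
  have h4 : ∑ v ∈ T, (eo (t₂ v) c * uu K (A : K) θ (t₁ v) (t₂ v) c' +
      uu K (A : K) θ (t₁ v) (t₂ v) c * eo (t₂ v) c') =
      ∑ v ∈ T, eo (t₂ v) c * (la (t₁ v) c + nuw K (A : K) θ (t₁ v)) +
      ∑ v ∈ T, eo (t₂ v) c' * (la (t₁ v) c' + nuw K (A : K) θ (t₁ v)) +
      ∑ v ∈ T, eo (t₂ v) (c + c') * (la (t₁ v) (c + c') + nuw K (A : K) θ (t₁ v)) := by
    rw [← Finset.sum_add_distrib, ← Finset.sum_add_distrib]
    refine Finset.sum_congr rfl fun v hvT => ?_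
    have ho1 : OddP (t₁ v) := by
      rw [oddP_dn (K := K), (hT v hvT).dn1]
      exact ho v hvT
    rw [H38T1.eo_add, H38T1.la_add ho1]
    unfold uu
    generalize eo (t₂ v) c = a
    generalize eo (t₂ v) c' = b
    generalize la (t₁ v) c = x
    generalize la (t₁ v) c' = y
    generalize nuw K (A : K) θ (t₁ v) = n
    revert a b x y n
    decide
  rw [h4, h1, h2, h3, add_zero, add_zero]

end H76OD
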