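import Pool.Agent.H76.OD.Rc
import Pool.Agent.H30.ZO.Cj
import Pool.Agent.H30.ZO.Ed
import Pool.Agent.H76.MQ.Tk
import Pool.Agent.H76.PP.Ze
import Pool.Agent.H36.MT.As1

/-!
Ar4, Ar5 (project MP_78d38b_OD): the local conditions of the twists (twists by local squares, locally trivial classes,
good places, special places).
-/

set_option autoImplicit false
set_option linter.unusedSectionVars false
open scoped Classical

open WithZero NumberField IsDedekindDomain H38RT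
open H38T1 (SC sc scu rep eo la si Pri OddP tp unif ka)
open H76PP H36MX H76MQ H76MX H30ZO

namespace H76OD

/-- twists by local squares -/
theorem Wc_tw {k L F : Type} [Field k] [Field L] [Algebra k L] [Field F] (i : k →+* F) {a b : k} {θ : L}
    {E E' : k} (hE : E ≠ 0) (hE' : E' ≠ 0) {r : F} (hr : i (E / E') = r ^ 2) {c : SC L}
    (hc : Wc i (E ^ 2 * a) (E ^ 3 * b) (algebraMap k L E * θ) c) :
    Wc i (E' ^ 2 * a) (E' ^ 3 * b) (algebraMap k L E' * θ) c := by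
  obtain ⟨d, hd, rfl, hLC⟩ := hc
  have hD : E / E' ≠ 0 := div_ne_zero hE hE'
  have h1 : (E / E') ^ 2 * (E' ^ 2 * a) = E ^ 2 * a := by
    rw [div_pow]
    field_simp
  have h2 : (E / E') ^ 3 * (E' ^ 3 * b) = E ^ 3 * b := by
    rw [div_pow]
    field_simp
  have h3 := LC_twist i (A := E' ^ 2 * a) (B := E' ^ 3 * b) hD (d' := d) hr (by rw [h1, h2]; exact hLC)
  have hEL : algebraMap k L E' ≠ 0 := (map_ne_zero _).2 hE'
  have hev : ev (algebraMap k L E' * θ) (fun j => d j * (E / E') ^ (j : ℕ)) =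
      ev (algebraMap k L E * θ) d := by
    unfold ev
    simp only [map_mul, map_pow, map_div₀, Fin.val_zero, Fin.val_one, Fin.val_two]
    field_simp
  exact ⟨_, by rw [hev]; exact hd, by rw [hev], h3⟩

theorem Wc_tw_iff {k L F : Type} [Field k] [Field L] [Algebra k L] [Field F] (i : k →+* F) {a b : k} {θ : L}
    {E E' : k} (hE : E ≠ 0) (hE' : E' ≠ 0) (hr : IsSquare (i (E' / E))) {c : SC L} :
    Wc i (E ^ 2 * a) (E ^ 3 * b) (algebraMap k L E * θ) c ↔
      Wc i (E' ^ 2 * a) (E' ^ 3 * b) (algebraMap k L E' * θ) c := by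
  obtain ⟨r, hr⟩ := hr
  have hr1 : i (E' / E) = r ^ 2 := by rw [hr]; ring
  have hr2 : i (E / E') = r⁻¹ ^ 2 := by
    rw [inv_pow, ← hr1, ← map_inv₀, inv_div]
  exact ⟨Wc_tw i hE hE' hr2, Wc_tw i hE' hE hr1⟩

theorem Wc_tw_real {k L : Type} [Field k] [Field L] [Algebra k L] (s : k →+* ℝ) {a b : k} {θ : L}
    {E E' : k} (hE : E ≠ 0) (hE' : E' ≠ 0) (hr : 0 < s (E' / E)) {c : SC L} :
    Wc s (E ^ 2 * a) (E ^ 3 * b) (algebraMap k L E * θ) c ↔
      Wc s (E' ^ 2 * a) (E' ^ 3 * b) (algebraMap k L E' * θ) c :=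
  Wc_tw_iff s hE hE' ⟨Real.sqrt (s (E' / E)), (Real.mul_self_sqrt hr.le).symm⟩

variable {k L : Type} [Field k] [NumberField k] [Field L] [NumberField L] [Algebra k L]

/-- an element of large valuation -/
theorem Lt_small (v : HeightOneSpectrum (𝓞 k)) (x : k) :
    ∃ t : k, t ≠ 0 ∧ v.valuation k t ≤ 1 ∧ v.valuation k (t * x) ≤ 1 := by
  by_cases hx : v.valuation k x ≤ 1
  · exact ⟨1, one_ne_zero, by rw [map_one], by rw [one_mul]; exact hx⟩
  · push Not at hx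
    have hx0 : x ≠ 0 := by
      rintro rfl
      rw [map_zero] at hx
      exact absurd hx (not_lt.2 zero_le_one)
    refine ⟨x⁻¹, inv_ne_zero hx0, ?_, ?_⟩
    · rw [map_inv₀]
      exact inv_le_one_of_one_le₀ hx.le
    · rw [inv_mul_cancel₀ hx0, map_one]

theorem Lt_dne {a b E : k} (hE : E ≠ 0) (hD : 4 * a ^ 3 + 27 * b ^ 2 ≠ 0) :
    4 * (E ^ 2 * a) ^ 3 + 27 * (E ^ 3 * b) ^ 2 ≠ 0 := by
  have e : 4 * (E ^ 2 * a) ^ 3 + 27 * (E ^ 3 * b) ^ 2 = E ^ 6 * (4 * a ^ 3 + 27 * b ^ 2) := by ring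
  rw [e]
  exact mul_ne_zero (pow_ne_zero 6 hE) hD

/-- locally trivial classes satisfy the conditions of all twists -/
theorem Wc_sq {a b : k} {θ : L} (h : Cub k L a b θ) (v : HeightOneSpectrum (𝓞 k))
    (ha : v.valuation k a ≤ 1) (hb : v.valuation k b ≤ 1) (hD : 4 * a ^ 3 + 27 * b ^ 2 ≠ 0) {E : k}
    (hE : E ≠ 0) {c : SC L} (hc : c ∈ Sqv k L v) :
    Wc (algebraMap k (v.adicCompletion k)) (E ^ 2 * a) (E ^ 3 * b) (algebraMap k L E * θ) c := by
  obtain ⟨t, ht0, ht1, ht2⟩ := Lt_small v E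
  have hE' : E * t ^ 2 ≠ 0 := mul_ne_zero hE (pow_ne_zero 2 ht0)
  have hv : v.valuation k (E * t ^ 2) ≤ 1 := by
    have e : E * t ^ 2 = t * E * t := by ring
    rw [e, map_mul]
    exact mul_le_one₀ ht2 zero_le ht1
  have h1 : Wc (algebraMap k (v.adicCompletion k)) ((E * t ^ 2) ^ 2 * a) ((E * t ^ 2) ^ 3 * b)
      (algebraMap k L (E * t ^ 2) * θ) c := by
    refine Sqv_le (Tf_twist h hE') v ?_ ?_ (Lt_dne hE' hD) hc
    · rw [map_mul, map_pow]
      exact mul_le_one₀ (pow_le_one₀ zero_le hv) zero_le ha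
    · rw [map_mul, map_pow]
      exact mul_le_one₀ (pow_le_one₀ zero_le hv) zero_le hb
  refine (Wc_tw_iff _ hE hE' ⟨algebraMap k (v.adicCompletion k) t, ?_⟩).2 h1
  rw [← map_mul]
  congr 1
  field_simp

/-- the same at the real places -/
theorem Wc_pos {a b : k} {θ : L} (h : Cub k L a b θ) (s : k →+* ℝ) (hD : 4 * a ^ 3 + 27 * b ^ 2 ≠ 0)
    {c : SC L} (hc : ∀ t : L →+* ℝ, t.comp (algebraMap k L) = s → si t c = 0) : Wc s a b θ c := by
  have hD' : 4 * (s a) ^ 3 + 27 * (s b) ^ 2 ≠ 0 := by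
    have e : 4 * (s a) ^ 3 + 27 * (s b) ^ 2 = s (4 * a ^ 3 + 27 * b ^ 2) := by
      rw [map_add, map_mul, map_mul, map_pow, map_pow, map_ofNat, map_ofNat]
    rw [e]
    exact (map_ne_zero s).2 hD
  obtain ⟨x, hx, rfl⟩ := H38T1.sc_surj c
  have hev : ev θ (fun j => h.co j x) = x := (h.eq_co x).symm
  obtain ⟨d, hd⟩ : ∃ d : Fin 3 → k, d = fun j => h.co j x := ⟨_, rfl⟩
  rw [← hd] at hev
  have hbig : ∀ y : ℝ, 1 + |s a| + |s b| ≤ y → 0 < y ^ 3 + s a * y + s b := by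
    intro y hy
    have hA := neg_abs_le (s a)
    have hB := neg_abs_le (s b)
    have hA0 := abs_nonneg (s a)
    have hB0 := abs_nonneg (s b)
    have hy1 : 1 ≤ y := by linarith
    have h1 : 0 ≤ (s a + |s a|) * y := mul_nonneg (by linarith) (by linarith)
    have h2 : 0 ≤ (y - (1 + |s a| + |s b|)) * y := mul_nonneg (by linarith) (by linarith)
    have h3 : 0 ≤ (y ^ 2) * (y - 1) := mul_nonneg (by positivity) (by linarith)
    have h4 : 0 ≤ |s b| * (y - 1) := mul_nonneg hB0 (by linarith)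
    nlinarith
  obtain ⟨X, hX⟩ : ∃ X : ℝ, X = 1 + |s a| + |s b| := ⟨_, rfl⟩
  have hmul : ∀ {r : ℝ}, r ^ 3 + s a * r + s b = 0 → ∀ u v : Fin 3 → ℝ,
      H24PD.E3 r (m3 (s a) (s b) u v) = H24PD.E3 r u * H24PD.E3 r v := by
    intro r hr u v
    have h0 : m3 (s a) (s b) u v 0 = u 0 * v 0 - s b * (u 1 * v 2 + u 2 * v 1) := rfl
    have h1 : m3 (s a) (s b) u v 1 =
        u 0 * v 1 + u 1 * v 0 - s a * (u 1 * v 2 + u 2 * v 1) - s b * (u 2 * v 2) := rfl
    have h2 : m3 (s a) (s b) u v 2 = u 0 * v 2 + u 1 * v 1 + u 2 * v 0 - s a * (u 2 * v 2) := rfl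
    unfold H24PD.E3
    rw [h0, h1, h2]
    linear_combination (-(u 1 * v 2 + u 2 * v 1) - u 2 * v 2 * r) * hr
  obtain ⟨z, hz⟩ := sq_real hD' (d := m3 (s a) (s b) (fun j => s (d j)) ![X, -1, 0]) (by
    intro r hr
    have h1 := hmul hr (fun j => s (d j)) ![X, -1, 0]
    have h2 : H24PD.E3 r ![X, -1, 0] = X - r := by
      unfold H24PD.E3
      simp only [Matrix.cons_val_zero, Matrix.cons_val_one, Matrix.cons_val]
      ring
    have h3 : 0 < H24PD.E3 r (fun j => s (d j)) := by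
      obtain ⟨t, ht, hr'⟩ := emb_real h s hr
      have h4 : t x = H24PD.E3 r (fun j => s (d j)) := by
        rw [← hev]
        unfold ev H24PD.E3
        rw [← ht, ← hr']
        simp only [map_add, map_mul, map_pow, RingHom.comp_apply]
      rw [← h4]
      have h5 := hc t ht
      rw [H38T1.si_sc t hx, H38RT.sw] at h5
      have h6 : 0 ≤ t x := by
        by_contra hcc
        push Not at hcc
        rw [if_pos hcc] at h5
        exact one_ne_zero h5
      exact lt_of_le_of_ne h6 (Ne.symm ((map_ne_zero t).2 hx))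
    have h4 : r < X := by
      by_contra hcc
      push Not at hcc
      have := hbig r (by rw [← hX]; exact hcc)
      linarith
    have h5 : 0 < H24PD.E3 r (m3 (s a) (s b) (fun j => s (d j)) ![X, -1, 0]) := by
      rw [h1, h2]
      exact mul_pos h3 (by linarith)
    exact h5)
  have hpos := hbig X (by rw [hX])
  refine ⟨d, by rw [hev]; exact hx, by rw [hev], X, Real.sqrt (X ^ 3 + s a * X + s b), z, ?_, ?_, ?_⟩
  · exact (Real.sqrt_pos.2 hpos).ne'
  · exact Real.sq_sqrt hpos.le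
  · exact hz.symm

theorem Wc_pos_tw {a b : k} {θ : L} (h : Cub k L a b θ) (s : k →+* ℝ) (hD : 4 * a ^ 3 + 27 * b ^ 2 ≠ 0)
    {E : k} (hE : E ≠ 0) {c : SC L} (hc : ∀ t : L →+* ℝ, t.comp (algebraMap k L) = s → si t c = 0) :
    Wc s (E ^ 2 * a) (E ^ 3 * b) (algebraMap k L E * θ) c :=
  Wc_pos (Tf_twist h hE) s (Lt_dne hE hD) hc

/-- the conditions at the good places -/
theorem Wc_good {a b : k} {θ : L} (h : Cub k L a b θ) (v : HeightOneSpectrum (𝓞 k))
    (ha : v.valuation k a ≤ 1) (hb : v.valuation k b ≤ 1) (h2 : v.valuation k 2 = 1)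
    (hD : v.valuation k (4 * a ^ 3 + 27 * b ^ 2) = 1) {E : k} (hE : v.valuation k E = 1) {c : SC L}
    (hc : c ∈ HH k L) :
    Wc (algebraMap k (v.adicCompletion k)) (E ^ 2 * a) (E ^ 3 * b) (algebraMap k L E * θ) c ↔
      ∀ w : HeightOneSpectrum (𝓞 L), dn k w = v → eo w c = 0 := by
  have hE0 : E ≠ 0 := by
    rintro rfl
    rw [map_zero] at hE
    exact zero_ne_one hE
  have hD0 : 4 * a ^ 3 + 27 * b ^ 2 ≠ 0 := by
    intro h0
    rw [h0, map_zero] at hD
    exact zero_ne_one hD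
  have h' := Tf_twist h hE0
  have ha' : v.valuation k (E ^ 2 * a) ≤ 1 := by
    rw [map_mul, map_pow, hE, one_pow, one_mul]
    exact ha
  have hb' : v.valuation k (E ^ 3 * b) ≤ 1 := by
    rw [map_mul, map_pow, hE, one_pow, one_mul]
    exact hb
  have hD' : v.valuation k (4 * (E ^ 2 * a) ^ 3 + 27 * (E ^ 3 * b) ^ 2) = 1 := by
    have e : 4 * (E ^ 2 * a) ^ 3 + 27 * (E ^ 3 * b) ^ 2 = E ^ 6 * (4 * a ^ 3 + 27 * b ^ 2) := by ring
    rw [e, map_mul, map_pow, hE, hD, one_pow, one_mul]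
  constructor
  · rintro ⟨d, hd, rfl, hLC⟩ w rfl
    refine H73P2.even_nice H36MT.ordSub h' w
      ⟨1, E ^ 2 * a, E ^ 3 * b, one_ne_zero, ?_, ?_, ha', hb', ?_⟩ hd hLC
    · rw [one_pow, one_mul]
    · rw [one_pow, one_mul]
    · rw [hD', ← exp_zero, exp_le_exp]
      norm_num
  · intro he
    have _ : CharZero (v.adicCompletion k) := H36CY.char_zero v
    obtain ⟨W, hW⟩ := exists_WW h' (algebraMap k (v.adicCompletion k)) (by
      have e : 4 * algebraMap k (v.adicCompletion k) (E ^ 2 * a) ^ 3 +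
          27 * algebraMap k (v.adicCompletion k) (E ^ 3 * b) ^ 2 =
          algebraMap k (v.adicCompletion k) (4 * (E ^ 2 * a) ^ 3 + 27 * (E ^ 3 * b) ^ 2) := by
        simp only [map_add, map_mul, map_pow, map_ofNat]
      rw [e]
      exact (map_ne_zero _).2 (Lt_dne hE0 hD0)) (H24PD.inf_fin v _ _)
    exact ((hW c).1 (good_W H36MT.ordSub h' v ha' hb' h2 hD' hW hc he)).2

/-- an integral element everywhere -/
theorem Lt_int {a : k} (ha : ∀ v : HeightOneSpectrum (𝓞 k), v.valuation k a ≤ 1) :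
    ∃ A : 𝓞 k, (A : k) = a := by
  have h := (HeightOneSpectrum.mem_integers_of_valuation_le_one (R := 𝓞 k) k a) ha
  exact h

/-- special places: the twist has odd order -/
theorem Wc_spec {a b : k} {θ : L} (h : Cub k L a b θ) (ha : ∀ v : HeightOneSpectrum (𝓞 k), v.valuation k a ≤ 1)
    (hb : ∀ v : HeightOneSpectrum (𝓞 k), v.valuation k b ≤ 1) {v : HeightOneSpectrum (𝓞 k)} (hv : OddP v)
    (hD : v.valuation k (4 * a ^ 3 + 27 * b ^ 2) = 1) {w₁ w₂ : HeightOneSpectrum (𝓞 L)}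
    (h2 : TwT k a θ v w₁ w₂) {E : k} (hE : E ≠ 0) (hEo : Odd (ord (v.valuation k) E)) {c : SC L}
    (hc : c ∈ HH k L)
    (hW : Wc (algebraMap k (v.adicCompletion k)) (E ^ 2 * a) (E ^ 3 * b) (algebraMap k L E * θ) c) :
    uu k a θ w₁ w₂ c = 0 := by
  obtain ⟨A, rfl⟩ := Lt_int ha
  obtain ⟨B, rfl⟩ := Lt_int hb
  have hD0 : 4 * (A : k) ^ 3 + 27 * (B : k) ^ 2 ≠ 0 := by
    intro h0
    rw [h0, map_zero] at hD
    exact zero_ne_one hD
  have hR : HR2 k L A B θ := hr2 h hD0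
  have hd : dsc A B ∉ v.asIdeal ^ 2 := by
    intro h1
    have h3 : dsc A B ∈ v.asIdeal := Ideal.pow_le_self two_ne_zero h1
    have h4 := (v.valuation_lt_one_iff_mem (K := k) (dsc A B)).2 h3
    have h5 : ((dsc A B : 𝓞 k) : k) = 4 * (A : k) ^ 3 + 27 * (B : k) ^ 2 := by
      unfold dsc
      simp only [map_add, map_mul, map_pow, map_ofNat]
    have h6 : v.valuation k ((dsc A B : 𝓞 k) : k) < 1 := h4
    rw [h5, hD] at h6
    exact lt_irrefl _ h6
  -- an integral twist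
  obtain ⟨n, E', hn, hE'⟩ : ∃ (n : k) (E' : 𝓞 k), n ≠ 0 ∧ (E' : k) = E * n ^ 2 := by
    obtain ⟨x, y, hy, hxy⟩ := IsFractionRing.div_surjective (A := 𝓞 k) E
    have hy0 : algebraMap (𝓞 k) k y ≠ 0 := by
      have := nonZeroDivisors.ne_zero hy
      exact (map_ne_zero_iff _ (IsFractionRing.injective (𝓞 k) k)).2 this
    refine ⟨algebraMap (𝓞 k) k y, x * y, hy0, ?_⟩
    rw [← hxy]
    change algebraMap (𝓞 k) k (x * y) = _
    rw [map_mul]
    field_simp
  have hE'0 : (E' : k) ≠ 0 := by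
    rw [hE']
    exact mul_ne_zero hE (pow_ne_zero 2 hn)
  have hW' : Wc (algebraMap k (v.adicCompletion k)) ((E' : k) ^ 2 * (A : k)) ((E' : k) ^ 3 * (B : k))
      (algebraMap k L (E' : k) * θ) c := by
    refine (Wc_tw_iff _ hE hE'0 ⟨algebraMap k (v.adicCompletion k) n, ?_⟩).1 hW
    rw [← map_mul]
    congr 1
    rw [hE']
    field_simp
  obtain ⟨d, hd0, rfl, hLC⟩ := hW'
  have hN : IsSquare (Algebra.norm k (ev (algebraMap k L (E' : k) * θ) d)) := by
    have h1 : scm (Algebra.norm k : L →* k) (sc (ev (algebraMap k L (E' : k) * θ) d)) = 0 := hc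
    rw [scm_sc _ hd0] at h1
    exact (H38T1.sc_eq_zero (scm_ne _ hd0)).1 h1
  have hEo' : eo v (sc (E' : k)) = 1 := by
    rw [hE', H38T1.sc_mul hE (pow_ne_zero 2 hn), H54MT.sc_sq hn, add_zero]
    exact Sb_eo_odd hE hEo
  have hE0 : E' ≠ 0 := fun h0 => hE'0 (by rw [h0]; rfl)
  have h1 := kum_T h hR hv hd h2 hE0 hEo' hd0 hN hLC
  unfold uu nuw
  rw [h1]
  exact CharTwo.add_self_eq_zero _

end H76OD
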