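import Pool.Agent.H76.OD.Cha
import Pool.Agent.H76.OD.Lt
import Pool.Agent.H76.MQ.Tt
import Pool.Agent.H88.OD.Ga
import Pool.Agent.H88.OD.Ex

/-!
Cheb, part 2 (project MP_78d38b_OD): special primes with prescribed Legendre symbols.
-/

set_option autoImplicit false
set_option linter.unusedSectionVars false
open scoped Classical

open NumberField IsDedekindDomain H38RT WithZero
open H38T1 (SC sc rep eo la OddP)
open H76PP (Cub scm dn dsc theta_int)
open H76MQ (TwT)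
open H88OD (Ext Sp gq)

namespace H76OD

/-- An integral representative. -/
theorem exists_irep {L : Type} [Field L] [NumberField L] (c : SC L) :
    ∃ d : 𝓞 L, d ≠ 0 ∧ sc (d : L) = c := by
  obtain ⟨y, hy, rfl⟩ := H38T1.sc_surj c
  obtain ⟨α, β, hβ, hxy⟩ := IsFractionRing.div_surjective (A := 𝓞 L) y
  have hβ0 : (β : L) ≠ 0 := (map_ne_zero_iff _ (IsFractionRing.injective (𝓞 L) L)).2
    (nonZeroDivisors.ne_zero hβ)
  have hα0 : (α : L) ≠ 0 := by
    intro h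
    apply hy
    rw [← hxy]
    change (α : L) / (β : L) = 0
    rw [h, zero_div]
  refine ⟨α * β, ?_, ?_⟩
  · intro h
    have h1 : algebraMap (𝓞 L) L (α * β) = 0 := by rw [h, map_zero]
    rw [map_mul] at h1
    exact mul_ne_zero hα0 hβ0 h1
  · have h1 : ((α * β : 𝓞 L) : L) = y * (β : L) ^ 2 := by
      change algebraMap (𝓞 L) L (α * β) = _
      rw [← hxy, map_mul]
      change (α : L) * (β : L) = (α : L) / (β : L) * (β : L) ^ 2
      field_simp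
    rw [h1, H38T1.sc_mul hy (pow_ne_zero 2 hβ0), H54MT.sc_sq hβ0, add_zero]

/-- A functional which does not vanish at a given class. -/
theorem exists_fun {M : Type} [Field M] {c : SC M} (hc : c ≠ 0) : ∃ χ : SC M →+ ZMod 2, χ c = 1 := by
  let _ : Module (ZMod 2) (SC M) := AddCommGroup.zmodModule (fun x => H38T1.SC.two_smul x)
  have h1 : ¬ ∀ f : Module.Dual (ZMod 2) (SC M), f c = 0 := by
    intro h
    exact hc ((Module.forall_dual_apply_eq_zero_iff (ZMod 2) c).1 h)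
  push Not at h1
  obtain ⟨f, hf⟩ := h1
  refine ⟨f.toAddMonoidHom, ?_⟩
  have h2 : ∀ x : ZMod 2, x = 0 ∨ x = 1 := by decide
  exact (h2 (f c)).resolve_left hf

theorem exists_sp {K F L : Type} [Field K] [NumberField K] [Field F] [NumberField F] [Field L]
    [NumberField L] [Algebra K F] [Algebra F L] {a b : K} {θ : L} (S : Ext K F L a b θ)
    (Sg : Finset (HeightOneSpectrum (𝓞 K))) {Y : Set (SC L)} (hY : Y.Finite)
    (hYH : ∀ c ∈ Y, c ∈ H30ZO.HH F L) (φ : SC L →+ ZMod 2) {A₀ : Set (HeightOneSpectrum (𝓞 K))}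
    (hA₀ : A₀.Finite) : ∃ P : Sp S Sg, P.q ∉ A₀ ∧ ∀ c ∈ Y, la P.t1 c = φ c := by
  let _ : Algebra K L := ((algebraMap F L).comp (algebraMap K F)).toAlgebra
  have hT : IsScalarTower K F L := IsScalarTower.of_algebraMap_eq fun _ => rfl
  have hgal := S.gal
  -- integral coefficients
  obtain ⟨a₀, ha₀⟩ := Lt_int S.ha
  obtain ⟨b₀, hb₀⟩ := Lt_int S.hb
  obtain ⟨A, hA⟩ : ∃ A : 𝓞 F, A = algebraMap (𝓞 K) (𝓞 F) a₀ := ⟨_, rfl⟩
  obtain ⟨B, hB⟩ : ∃ B : 𝓞 F, B = algebraMap (𝓞 K) (𝓞 F) b₀ := ⟨_, rfl⟩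
  have hA' : (A : F) = algebraMap K F a := by
    rw [hA, ← ha₀]
    rfl
  have hB' : (B : F) = algebraMap K F b := by
    rw [hB, ← hb₀]
    rfl
  have hcub : Cub F L (A : F) (B : F) θ := by
    rw [hA', hB']
    exact S.cub
  have hfin : Module.Finite F L := Module.Finite.of_basis hcub.basis
  obtain ⟨θ', hθ'⟩ := theta_int hcub
  -- the discriminant
  obtain ⟨δ, hδ⟩ : ∃ δ : 𝓞 F, δ = -dsc A B := ⟨_, rfl⟩
  have hδF : (δ : F) = algebraMap K F (-(4 * a ^ 3 + 27 * b ^ 2)) := by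
    have hA'' : algebraMap (𝓞 F) F A = algebraMap K F a := hA'
    have hB'' : algebraMap (𝓞 F) F B = algebraMap K F b := hB'
    rw [hδ]
    unfold dsc
    simp only [map_neg, map_add, map_mul, map_pow, map_ofNat]
    rw [hA'', hB'']
  have hδ0 : (δ : F) ≠ 0 := by
    rw [hδF]
    exact (map_ne_zero _).2 (neg_ne_zero.2 S.dne)
  have hδs : ¬ IsSquare (δ : F) := by
    rw [hδF]
    exact H88OD.nosquare S.odd S.dsq
  obtain ⟨δL, hδL⟩ : ∃ δL : 𝓞 L, δL = algebraMap (𝓞 F) (𝓞 L) δ := ⟨_, rfl⟩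
  have hδL' : (δL : L) = algebraMap F L (δ : F) := by
    rw [hδL]
    rfl
  have hδL0 : (δL : L) ≠ 0 := by
    rw [hδL']
    exact (map_ne_zero _).2 hδ0
  have hδ00 : δL ≠ 0 := fun h => hδL0 (by rw [h]; rfl)
  -- the functional
  obtain ⟨χ, hχ⟩ := exists_fun (c := sc (δ : F)) (by
    intro h
    exact hδs ((H38T1.sc_eq_zero hδ0).1 h))
  have hnorm : scm (Algebra.norm F : L →* F) (sc (δL : L)) = sc (δ : F) := by
    rw [H76PP.scm_sc _ hδL0]
    have h1 : Algebra.norm F (δL : L) = (δ : F) * (δ : F) ^ 2 := by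
      rw [hδL', Algebra.norm_algebraMap, hcub.finrank]
      ring
    change sc (Algebra.norm F (δL : L)) = _
    rw [h1, H38T1.sc_mul hδ0 (pow_ne_zero 2 hδ0), H54MT.sc_sq hδ0, add_zero]
  obtain ⟨ψ, hψ⟩ : ∃ ψ : SC L →+ ZMod 2, ψ = χ.comp (scm (Algebra.norm F : L →* F)) := ⟨_, rfl⟩
  have hψ0 : ∀ c ∈ H30ZO.HH F L, ψ c = 0 := by
    intro c hc
    have h1 : scm (Algebra.norm F : L →* F) c = 0 := hc
    rw [hψ, AddMonoidHom.comp_apply, h1, map_zero]
  have hψ1 : ψ (sc (δL : L)) = 1 := by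
    rw [hψ, AddMonoidHom.comp_apply, hnorm, hχ]
  obtain ⟨φ', hφ'⟩ : ∃ φ' : SC L →+ ZMod 2, (∀ c ∈ H30ZO.HH F L, φ' c = φ c) ∧
      φ' (sc (δL : L)) = 1 := by
    have h2 : ∀ x : ZMod 2, x = 0 ∨ x = 1 := by decide
    rcases h2 (φ (sc (δL : L))) with h | h
    · refine ⟨φ + ψ, fun c hc => ?_, ?_⟩
      · rw [AddMonoidHom.add_apply, hψ0 c hc, add_zero]
      · rw [AddMonoidHom.add_apply, hψ1, h, zero_add]
    · exact ⟨φ, fun c _ => rfl, h⟩
  obtain ⟨hφ1, hφ2⟩ := hφ'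
  -- the elements
  choose r hr0 hr1 using (fun c : SC L => exists_irep c)
  obtain ⟨D, hD⟩ : ∃ D : Finset (𝓞 L), D = insert δL (hY.toFinset.image r) := ⟨_, rfl⟩
  have hD0 : ∀ d ∈ D, d ≠ 0 := by
    intro d hd
    rw [hD, Finset.mem_insert, Finset.mem_image] at hd
    rcases hd with rfl | ⟨c, -, rfl⟩
    · exact hδ00
    · exact hr0 c
  -- the bad places
  have hmove : ∀ g : F ≃ₐ[K] F, g ≠ 1 → ∃ x : 𝓞 F, H38T1.gO (gq g) x - x ≠ 0 := by
    intro g hg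
    by_contra hcon
    push Not at hcon
    apply hg
    apply AlgEquiv.ext
    intro y
    obtain ⟨α, β, -, hxy⟩ := IsFractionRing.div_surjective (A := 𝓞 F) y
    have h1 : ∀ z : 𝓞 F, g (z : F) = (z : F) := by
      intro z
      have h2 := sub_eq_zero.1 (hcon z)
      have h3 := congrArg (fun t : 𝓞 F => (t : F)) h2
      exact h3
    change g y = y
    rw [← hxy, map_div₀]
    exact congrArg₂ (· / ·) (h1 α) (h1 β)
  choose! X hX using hmove
  have hfinK : ∀ x : 𝓞 F, x ≠ 0 → {v : HeightOneSpectrum (𝓞 K) |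
      ∃ w : HeightOneSpectrum (𝓞 F), dn K w = v ∧ x ∈ w.asIdeal}.Finite := by
    intro x hx
    refine ((H30MQ.fin_mem hx).image (dn K)).subset ?_
    rintro v ⟨w, rfl, hw⟩
    exact ⟨w, hw, rfl⟩
  have hbad : (((A₀ ∪ (Sg : Set (HeightOneSpectrum (𝓞 K)))) ∪
      {v : HeightOneSpectrum (𝓞 K) | (3 : 𝓞 K) ∈ v.asIdeal}) ∪
      ⋃ g : {g : F ≃ₐ[K] F // g ≠ 1}, {v : HeightOneSpectrum (𝓞 K) |
        ∃ w : HeightOneSpectrum (𝓞 F), dn K w = v ∧
          H38T1.gO (gq g.1) (X g.1) - X g.1 ∈ w.asIdeal}).Finite := by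
    refine ((hA₀.union Sg.finite_toSet).union (H30MQ.fin_mem (by norm_num))).union ?_
    exact Set.finite_iUnion fun g => hfinK _ (hX g.1 g.2)
  obtain ⟨w, hwB, hw2, hdeg, hla⟩ := cheb_N (K := K) D hD0 φ' _ hbad
  obtain ⟨v, hv⟩ : ∃ v : HeightOneSpectrum (𝓞 F), v = dn F w := ⟨_, rfl⟩
  have hKv : dn K v = dn K w := by
    apply HeightOneSpectrum.ext
    ext x
    rw [hv]
    change algebraMap (𝓞 F) (𝓞 L) (algebraMap (𝓞 K) (𝓞 F) x) ∈ w.asIdeal ↔
      algebraMap (𝓞 K) (𝓞 L) x ∈ w.asIdeal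
    rw [IsScalarTower.algebraMap_apply (𝓞 K) (𝓞 F) (𝓞 L) x]
  have hmem : ∀ x : 𝓞 F, x ∈ v.asIdeal ↔ algebraMap (𝓞 F) (𝓞 L) x ∈ w.asIdeal := by
    intro x
    rw [hv]
    rfl
  have hδD : δL ∈ D := by
    rw [hD]
    exact Finset.mem_insert_self _ _
  obtain ⟨hδw, hδla⟩ := hla δL hδD
  rw [hφ2] at hδla
  have hodd : OddP w := by
    have h3 : w.valuation L ((2 : 𝓞 L) : L) = 1 := w.valuation_eq_one_iff_notMem.mpr hw2
    have h4 : ((2 : 𝓞 L) : L) = 2 := map_ofNat _ 2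
    rw [h4] at h3
    exact h3
  obtain ⟨n, hn⟩ := hdeg θ'
  obtain ⟨t, ht⟩ : ∃ t : 𝓞 F, t = algebraMap (𝓞 K) (𝓞 F) n := ⟨_, rfl⟩
  have htL : algebraMap (𝓞 F) (𝓞 L) t = algebraMap (𝓞 K) (𝓞 L) n := by
    rw [ht]
    exact (IsScalarTower.algebraMap_apply (𝓞 K) (𝓞 F) (𝓞 L) n).symm
  rw [← htL] at hn
  have hroot : θ' ^ 3 + algebraMap (𝓞 F) (𝓞 L) A * θ' + algebraMap (𝓞 F) (𝓞 L) B = 0 := by
    apply RingOfIntegers.coe_injective
    have h1 := hcub.root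
    simp only [map_add, map_mul, map_pow, map_zero, hθ']
    exact h1
  have hroott : t ^ 3 + A * t + B ∈ v.asIdeal := by
    rw [hmem]
    have h1 : algebraMap (𝓞 F) (𝓞 L) (t ^ 3 + A * t + B) =
        (algebraMap (𝓞 F) (𝓞 L) t - θ') * (algebraMap (𝓞 F) (𝓞 L) t ^ 2 +
          algebraMap (𝓞 F) (𝓞 L) t * θ' + θ' ^ 2 + algebraMap (𝓞 F) (𝓞 L) A) := by
      simp only [map_add, map_mul, map_pow]
      linear_combination hroot
    rw [h1]
    exact w.asIdeal.mul_mem_right _ hn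
  have htyp : ∃ t : 𝓞 F, t ^ 3 + A * t + B ∈ v.asIdeal ∧
      ∀ s : 𝓞 F, -3 * t ^ 2 - 4 * A - s ^ 2 ∉ v.asIdeal := by
    refine ⟨t, hroott, fun s hs => ?_⟩
    have h1 : la w (sc (δL : L)) = 0 := by
      rw [H30MQ.la_iff hodd hδw]
      refine ⟨algebraMap (𝓞 F) (𝓞 L) (s * (3 * t ^ 2 + A)), ?_⟩
      rw [hδL, ← map_pow, ← map_sub, ← hmem]
      have h2 : δ - (s * (3 * t ^ 2 + A)) ^ 2 =
          (-3 * t ^ 2 - 4 * A - s ^ 2) * (3 * t ^ 2 + A) ^ 2 +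
          (t ^ 3 + A * t + B) * (54 * (t ^ 3 + A * t) - 27 * (t ^ 3 + A * t + B)) := by
        rw [hδ]
        unfold dsc
        ring
      rw [h2]
      exact v.asIdeal.add_mem (v.asIdeal.mul_mem_right _ hs) (v.asIdeal.mul_mem_right _ hroott)
    rw [hδla] at h1
    exact one_ne_zero h1
  have hdsc : dsc A B ∉ v.asIdeal ^ 2 := by
    intro h1
    have h2 : dsc A B ∈ v.asIdeal := Ideal.pow_le_self two_ne_zero h1
    apply hδw
    rw [hδL, ← hmem, hδ]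
    exact v.asIdeal.neg_mem h2
  have hKw : dn K w ∉ A₀ ∧ dn K w ∉ Sg ∧ (3 : 𝓞 K) ∉ (dn K w).asIdeal := by
    refine ⟨fun h => hwB (Or.inl (Or.inl (Or.inl h))), fun h => hwB (Or.inl (Or.inl (Or.inr h))),
      fun h => hwB (Or.inl (Or.inr h))⟩
  have h6 : (6 : 𝓞 F) ∉ v.asIdeal := by
    intro h
    have e1 : (6 : 𝓞 F) = 2 * 3 := by norm_num
    rw [e1] at h
    rcases v.isPrime.mem_or_mem h with h | h
    · apply hw2
      have h1 := (hmem 2).1 h
      rwa [map_ofNat] at h1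
    · apply hKw.2.2
      rw [← hKv]
      change algebraMap (𝓞 K) (𝓞 F) 3 ∈ v.asIdeal
      rw [map_ofNat]
      exact h
  obtain ⟨w₁, w₂, h2⟩ := H76MQ.exists_TwT hcub hdsc h6 htyp
  have hw1 : w = w₁ := by
    rcases h2.only w hv.symm with h | h
    · exact h
    · exfalso
      have h3 := h2.unit2 (t : F) (v.valuation_le_one t)
      rw [← h] at h3
      have h4 := (w.valuation_lt_one_iff_mem (K := L) (algebraMap (𝓞 F) (𝓞 L) t - θ')).2 hn
      have h5 : ((algebraMap (𝓞 F) (𝓞 L) t - θ' : 𝓞 L) : L) = algebraMap F L (t : F) - θ := by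
        rw [← hθ']
        change algebraMap (𝓞 L) L (algebraMap (𝓞 F) (𝓞 L) t - θ') = _
        rw [map_sub]
        rfl
      have h6 : w.valuation L ((algebraMap (𝓞 F) (𝓞 L) t - θ' : 𝓞 L) : L) < 1 := h4
      rw [h5, h3] at h6
      exact lt_irrefl _ h6
  rw [← hw1, hA'] at h2
  refine ⟨⟨v, w, w₂, ?_, h2, ?_⟩, ?_, fun c hc => ?_⟩
  · rw [hKv]
    exact hKw.2.1
  · intro g hg
    by_contra hg1
    have h3 : gq g • v = v := by
      have h4 := H88OD.dn_smul S g w₂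
      rw [hg, h2.dn2] at h4
      exact h4.symm
    obtain ⟨m, hm⟩ := hdeg (algebraMap (𝓞 F) (𝓞 L) (X g))
    have hm1 : algebraMap (𝓞 K) (𝓞 F) m - X g ∈ v.asIdeal := by
      rw [hmem, map_sub, ← IsScalarTower.algebraMap_apply (𝓞 K) (𝓞 F) (𝓞 L) m]
      exact hm
    have hm2 : H38T1.gO (gq g) (algebraMap (𝓞 K) (𝓞 F) m - X g) ∈ v.asIdeal := by
      rw [← h3]
      change H38T1.gO (gq g)⁻¹ (H38T1.gO (gq g) (algebraMap (𝓞 K) (𝓞 F) m - X g)) ∈ v.asIdeal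
      have h4 : H38T1.gO (gq g)⁻¹ (H38T1.gO (gq g) (algebraMap (𝓞 K) (𝓞 F) m - X g)) =
          algebraMap (𝓞 K) (𝓞 F) m - X g := by
        apply RingOfIntegers.ext
        rw [H38T1.gO_coe, H38T1.gO_coe]
        exact (gq g).symm_apply_apply _
      rw [h4]
      exact hm1
    have h5 : H38T1.gO (gq g) (algebraMap (𝓞 K) (𝓞 F) m) = algebraMap (𝓞 K) (𝓞 F) m := by
      apply RingOfIntegers.ext
      rw [H38T1.gO_coe]
      exact g.commutes (m : K)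
    have h6 : H38T1.gO (gq g) (X g) - X g ∈ v.asIdeal := by
      have h7 : H38T1.gO (gq g) (X g) - X g = (algebraMap (𝓞 K) (𝓞 F) m - X g) -
          H38T1.gO (gq g) (algebraMap (𝓞 K) (𝓞 F) m - X g) := by
        rw [map_sub, h5]
        ring
      rw [h7]
      exact v.asIdeal.sub_mem hm1 hm2
    apply hwB
    right
    exact Set.mem_iUnion.2 ⟨⟨g, hg1⟩, v, hKv, h6⟩
  · change dn K v ∉ A₀
    rw [hKv]
    exact hKw.1
  · have h3 : r c ∈ D := by
      rw [hD, Finset.mem_insert, Finset.mem_image]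
      exact Or.inr ⟨c, hY.mem_toFinset.2 hc, rfl⟩
    have h4 := (hla _ h3).2
    rw [hr1, hφ1 c (hYH c hc)] at h4
    exact h4

end H76OD
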