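import Pool.Agent.H30.MQ.Cn

/-!
Cheb, part 1 (project MP_78d38b_OD): places of `N` of degree one over `K` with prescribed Legendre symbols.
-/

set_option autoImplicit false
set_option linter.unusedSectionVars false
open scoped Classical

open NumberField IsDedekindDomain Filter Topology Pool.Agent.H42.PC H38RT WithZero
open H38T1 (SC sc rep eo la OddP)

namespace H76OD

section Fld

variable {K : Type} [Field K] [NumberField K]

/-- A Galois extension of `K` which contains `N` and square roots of the given elements of `N`. -/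
theorem exists_fieldM (N : Type) [Field N] [NumberField N] [Algebra K N] (D : Finset (𝓞 N)) :
    ∃ (L : Type) (_ : Field L) (_ : NumberField L) (_ : Algebra K L) (_ : Algebra N L)
    (_ : IsScalarTower K N L) (_ : IsGalois K L) (s : 𝓞 N → L),
    ∀ d ∈ D, s d ^ 2 = algebraMap N L (d : N) := by
  have h1 : ∀ d : 𝓞 N, ∃ s : AlgebraicClosure N,
      s ^ 2 = algebraMap N (AlgebraicClosure N) (d : N) :=
    fun d => IsAlgClosed.exists_pow_nat_eq _ two_pos
  choose s hs using h1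
  have hfN : FiniteDimensional K N := Module.Finite.of_restrictScalars_finite ℚ K N
  have halg : Algebra.IsAlgebraic K (AlgebraicClosure N) :=
    Algebra.IsAlgebraic.trans K N (AlgebraicClosure N)
  have hcl : IsAlgClosure K (AlgebraicClosure N) := ⟨inferInstance, halg⟩
  have hnΩ : Normal K (AlgebraicClosure N) := IsAlgClosure.normal K _
  let E₁ : IntermediateField K (AlgebraicClosure N) :=
    (IsScalarTower.toAlgHom K N (AlgebraicClosure N)).fieldRange
  let E₂ : IntermediateField K (AlgebraicClosure N) :=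
    IntermediateField.adjoin K (D.image s : Set (AlgebraicClosure N))
  have hE₁ : FiniteDimensional K E₁ :=
    Module.Finite.of_surjective
      ((IsScalarTower.toAlgHom K N (AlgebraicClosure N)).rangeRestrict).toLinearMap
      (IsScalarTower.toAlgHom K N (AlgebraicClosure N)).rangeRestrict_surjective
  have hE₂ : FiniteDimensional K E₂ := by
    refine IntermediateField.finiteDimensional_adjoin fun x _ => ?_
    exact (Algebra.IsAlgebraic.isAlgebraic (R := K) x).isIntegral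
  obtain ⟨E, hEd⟩ : ∃ E : IntermediateField K (AlgebraicClosure N), E = E₁ ⊔ E₂ := ⟨_, rfl⟩
  have hE : FiniteDimensional K E := by
    rw [hEd]
    infer_instance
  let L : IntermediateField K (AlgebraicClosure N) :=
    IntermediateField.normalClosure K E (AlgebraicClosure N)
  have hL : FiniteDimensional K L := inferInstance
  have hLn : Normal K L := inferInstance
  have hfinQ : FiniteDimensional ℚ L := Module.Finite.trans K _
  have hL' : NumberField L :=
    { to_charZero := inferInstance, to_finiteDimensional := hfinQ }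
  have hG : IsGalois K L := { }
  have hEL : E ≤ L := IntermediateField.le_normalClosure E
  have hmem : ∀ d ∈ D, s d ∈ L := by
    intro d hd
    apply hEL
    rw [hEd]
    apply (le_sup_right : E₂ ≤ E₁ ⊔ E₂)
    apply IntermediateField.subset_adjoin
    exact Finset.mem_coe.2 (Finset.mem_image_of_mem s hd)
  have hNL : ∀ x : N, algebraMap N (AlgebraicClosure N) x ∈ L := by
    intro x
    apply hEL
    rw [hEd]
    apply (le_sup_left : E₁ ≤ E₁ ⊔ E₂)
    exact ⟨x, rfl⟩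
  let i : N →+* L := RingHom.codRestrict (algebraMap N (AlgebraicClosure N)) L hNL
  let hA : Algebra N L := i.toAlgebra
  have hT : IsScalarTower K N L := IsScalarTower.of_algebraMap_eq fun x =>
    Subtype.ext (IsScalarTower.algebraMap_apply K N (AlgebraicClosure N) x)
  refine ⟨L, inferInstance, hL', inferInstance, hA, hT, hG,
    fun d => if h : d ∈ D then ⟨s d, hmem d h⟩ else 0, ?_⟩
  intro d hd
  simp only [dif_pos hd]
  apply Subtype.ext
  exact hs d

end Fld

section Frob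

variable {K L : Type} [Field K] [NumberField K] [Field L] [NumberField L] [Algebra K L]
  [IsGalois K L]

/-- An integer fixed by the Frobenius element at `w` is congruent to an integer of `K`. -/
theorem int_of_frobW {v : HeightOneSpectrum (𝓞 K)} {g : L ≃ₐ[K] L} {w : HeightOneSpectrum (𝓞 L)}
    (hw : w.asIdeal.LiesOver v.asIdeal) (hfr : IsArithFrobAt (𝓞 K) g w.asIdeal) {x : 𝓞 L}
    (hx : g • x = x) : ∃ n : 𝓞 K, algebraMap (𝓞 K) (𝓞 L) n - x ∈ w.asIdeal := by
  have hmaxv : v.asIdeal.IsMaximal := v.isMaximal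
  have hmaxw : w.asIdeal.IsMaximal := w.isMaximal
  let _ : Field (𝓞 K ⧸ v.asIdeal) := Ideal.Quotient.field v.asIdeal
  let _ : Field (𝓞 L ⧸ w.asIdeal) := Ideal.Quotient.field w.asIdeal
  have hN0 : Ideal.absNorm v.asIdeal ≠ 0 := (Ideal.absNorm_eq_zero_iff.not).2 v.ne_bot
  have hfin : Finite (𝓞 K ⧸ v.asIdeal) := by
    apply Nat.finite_of_card_ne_zero
    exact hN0
  let _ : Fintype (𝓞 K ⧸ v.asIdeal) := Fintype.ofFinite _
  have hle : v.asIdeal ≤ w.asIdeal.comap (algebraMap (𝓞 K) (𝓞 L)) := by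
    rw [hw.over]
  let φ : (𝓞 K ⧸ v.asIdeal) →+* (𝓞 L ⧸ w.asIdeal) :=
    Ideal.quotientMap w.asIdeal (algebraMap (𝓞 K) (𝓞 L)) hle
  have h1 := hfr x
  have h3 : Nat.card (𝓞 K ⧸ w.asIdeal.under (𝓞 K)) = Fintype.card (𝓞 K ⧸ v.asIdeal) := by
    rw [← hw.over, Nat.card_eq_fintype_card]
  rw [h3] at h1
  have h4 : x - x ^ Fintype.card (𝓞 K ⧸ v.asIdeal) ∈ w.asIdeal := by
    have h5 : (MulSemiringAction.toAlgHom (𝓞 K) (𝓞 L) g) x = x := hx
    rw [h5] at h1
    exact h1
  obtain ⟨q, hq⟩ : ∃ q : ℕ, q = Fintype.card (𝓞 K ⧸ v.asIdeal) := ⟨_, rfl⟩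
  have hq1 : 1 < q := by
    rw [hq]
    exact Fintype.one_lt_card
  obtain ⟨y, hy⟩ : ∃ y : 𝓞 L ⧸ w.asIdeal, y = Ideal.Quotient.mk w.asIdeal x := ⟨_, rfl⟩
  have hyq : y ^ q = y := by
    have h6 := Ideal.Quotient.eq_zero_iff_mem.2 h4
    rw [map_sub, map_pow, sub_eq_zero, ← hy, ← hq] at h6
    exact h6.symm
  obtain ⟨P, hP⟩ : ∃ P : Polynomial (𝓞 L ⧸ w.asIdeal), P = Polynomial.X ^ q - Polynomial.X :=
    ⟨_, rfl⟩
  have hP0 : P ≠ 0 := by
    rw [hP]
    exact FiniteField.X_pow_card_sub_X_ne_zero _ hq1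
  have hPd : P.natDegree = q := by
    rw [hP]
    exact FiniteField.X_pow_card_sub_X_natDegree_eq _ hq1
  have hroot : ∀ z : 𝓞 L ⧸ w.asIdeal, z ^ q = z → z ∈ P.roots := by
    intro z hz
    rw [Polynomial.mem_roots hP0, hP, Polynomial.IsRoot.def, Polynomial.eval_sub,
      Polynomial.eval_pow, Polynomial.eval_X, hz, sub_self]
  have hmem : y ∈ Finset.univ.image φ := by
    by_contra hcon
    have h7 : (insert y (Finset.univ.image φ)).val ⊆ P.roots := by
      intro z hz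
      have hz' : z ∈ insert y (Finset.univ.image φ) := hz
      rcases Finset.mem_insert.1 hz' with h8 | h8
      · rw [h8]
        exact hroot y hyq
      · obtain ⟨b, -, rfl⟩ := Finset.mem_image.1 h8
        apply hroot
        rw [← map_pow, hq, FiniteField.pow_card]
    have h8 := Polynomial.card_le_degree_of_subset_roots h7
    rw [Finset.card_insert_of_notMem hcon, Finset.card_image_of_injective _ φ.injective,
      Finset.card_univ, ← hq, hPd] at h8
    omega
  obtain ⟨b, -, hb⟩ := Finset.mem_image.1 hmem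
  obtain ⟨n, rfl⟩ := Ideal.Quotient.mk_surjective b
  refine ⟨n, ?_⟩
  rw [← Ideal.Quotient.eq_zero_iff_mem, map_sub, ← hy, ← hb, sub_eq_zero]
  exact (Ideal.quotientMap_mk).symm

end Frob

section Main

variable {K N : Type} [Field K] [NumberField K] [Field N] [NumberField N] [Algebra K N]

/-- Equal residue fields. -/
theorem card_deg1 {w : HeightOneSpectrum (𝓞 N)}
    (h : ∀ x : 𝓞 N, ∃ n : 𝓞 K, algebraMap (𝓞 K) (𝓞 N) n - x ∈ w.asIdeal) :
    Nat.card (𝓞 K ⧸ w.asIdeal.comap (algebraMap (𝓞 K) (𝓞 N))) = Nat.card (𝓞 N ⧸ w.asIdeal) := by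
  refine Nat.card_congr (Equiv.ofBijective (Ideal.quotientMap w.asIdeal (algebraMap (𝓞 K) (𝓞 N))
    le_rfl) ⟨Ideal.quotientMap_injective, ?_⟩)
  intro y
  obtain ⟨x, rfl⟩ := Ideal.Quotient.mk_surjective y
  obtain ⟨n, hn⟩ := h x
  refine ⟨Ideal.Quotient.mk _ n, ?_⟩
  rw [Ideal.quotientMap_mk]
  exact Ideal.Quotient.eq.2 hn

/-- Infinitely many places of `N` of degree one over `K` with prescribed Legendre symbols. -/
theorem cheb_N (D : Finset (𝓞 N)) (hD : ∀ d ∈ D, d ≠ 0) (φ : SC N →+ ZMod 2)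
    (B : Set (HeightOneSpectrum (𝓞 K))) (hB : B.Finite) :
    ∃ w : HeightOneSpectrum (𝓞 N), H76PP.dn K w ∉ B ∧ (2 : 𝓞 N) ∉ w.asIdeal ∧
      (∀ x : 𝓞 N, ∃ n : 𝓞 K, algebraMap (𝓞 K) (𝓞 N) n - x ∈ w.asIdeal) ∧
      ∀ d ∈ D, d ∉ w.asIdeal ∧ la w (sc (d : N)) = φ (sc (d : N)) := by
  obtain ⟨L, _, _, _, _, _, _, s, hs⟩ := exists_fieldM (K := K) N D
  have hLN : IsGalois N L := IsGalois.tower_top_of_isGalois K N L
  obtain ⟨σ, hσ⟩ := H30MQ.exists_sigma (K := N) (L := L) D hD s hs φ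
  let τ : L ≃ₐ[K] L := σ.restrictScalars K
  have hτN : ∀ x : N, τ (algebraMap N L x) = algebraMap N L x := fun x => σ.commutes x
  -- the bad places
  have hfin : ∀ x : 𝓞 N, x ≠ 0 → {v : HeightOneSpectrum (𝓞 K) |
      ∃ w : HeightOneSpectrum (𝓞 N), H76PP.dn K w = v ∧ x ∈ w.asIdeal}.Finite := by
    intro x hx
    refine ((H30MQ.fin_mem hx).image (H76PP.dn K)).subset ?_
    rintro v ⟨w, rfl, hw⟩
    exact ⟨w, hw, rfl⟩
  have hbad : ((B ∪ {v : HeightOneSpectrum (𝓞 K) |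
      ∃ w : HeightOneSpectrum (𝓞 N), H76PP.dn K w = v ∧ (2 : 𝓞 N) ∈ w.asIdeal}) ∪
      ⋃ d ∈ D, {v : HeightOneSpectrum (𝓞 K) |
        ∃ w : HeightOneSpectrum (𝓞 N), H76PP.dn K w = v ∧ d ∈ w.asIdeal}).Finite :=
    (hB.union (hfin _ two_ne_zero)).union
      (Set.Finite.biUnion D.finite_toSet fun d hd => hfin d (hD d hd))
  obtain ⟨v, ⟨g, hg, W, hW, hfr⟩, hv⟩ := ((H30MQ.frob_infK τ).sdiff hbad).nonempty
  have hgN : ∀ x : N, g (algebraMap N L x) = algebraMap N L x := by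
    intro x
    have h3 := H30MQ.same_sign (g := g) (σ := τ) hg (s := algebraMap N L x) (e := 0)
      (by rw [if_pos rfl]; exact hτN x)
    rw [if_pos rfl] at h3
    exact h3
  let g' : L ≃ₐ[N] L := AlgEquiv.ofRingEquiv (f := g.toRingEquiv) hgN
  have hg' : ∀ x : L, g' x = g x := fun x => rfl
  obtain ⟨w, hw⟩ : ∃ w : HeightOneSpectrum (𝓞 N), w = H76PP.dn N W := ⟨_, rfl⟩
  have hψ : ∀ x : 𝓞 K, algebraMap (𝓞 N) (𝓞 L) (algebraMap (𝓞 K) (𝓞 N) x) =
      algebraMap (𝓞 K) (𝓞 L) x := fun x => (IsScalarTower.algebraMap_apply (𝓞 K) (𝓞 N) (𝓞 L) x).symm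
  have hdn : H76PP.dn K w = v := by
    apply HeightOneSpectrum.ext
    rw [hW.over, hw]
    ext x
    change algebraMap (𝓞 N) (𝓞 L) (algebraMap (𝓞 K) (𝓞 N) x) ∈ W.asIdeal ↔ _
    rw [hψ]
    rfl
  have hvB : v ∉ B := fun h => hv (Or.inl (Or.inl h))
  have hdeg : ∀ x : 𝓞 N, ∃ n : 𝓞 K, algebraMap (𝓞 K) (𝓞 N) n - x ∈ w.asIdeal := by
    intro x
    obtain ⟨n, hn⟩ := int_of_frobW hW hfr (x := algebraMap (𝓞 N) (𝓞 L) x) (by
      apply RingOfIntegers.coe_injective
      exact hgN x)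
    refine ⟨n, ?_⟩
    rw [hw]
    change algebraMap (𝓞 N) (𝓞 L) (algebraMap (𝓞 K) (𝓞 N) n - x) ∈ W.asIdeal
    rw [map_sub, hψ]
    exact hn
  have hWw : W.asIdeal.LiesOver w.asIdeal := ⟨by rw [hw]; rfl⟩
  have hfr' : IsFr N L w g' := by
    refine ⟨W, hWw, ?_⟩
    intro x
    have h1 := hfr x
    have e1 : W.asIdeal.under (𝓞 N) = w.asIdeal := hWw.over.symm
    have e2 : W.asIdeal.under (𝓞 K) = w.asIdeal.comap (algebraMap (𝓞 K) (𝓞 N)) := by
      rw [← hW.over, ← hdn]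
      rfl
    have e3 : Nat.card (𝓞 N ⧸ W.asIdeal.under (𝓞 N)) = Nat.card (𝓞 K ⧸ W.asIdeal.under (𝓞 K)) := by
      rw [e1, e2, card_deg1 hdeg]
    rw [e3]
    exact h1
  have h2w : (2 : 𝓞 N) ∉ w.asIdeal := fun h => hv (Or.inl (Or.inr ⟨w, hdn, h⟩))
  refine ⟨w, by rw [hdn]; exact hvB, h2w, hdeg, fun d hd => ?_⟩
  have hdw : d ∉ w.asIdeal := fun h => hv (Or.inr (Set.mem_biUnion hd ⟨w, hdn, h⟩))
  refine ⟨hdw, H30MQ.la_of_frob hfr' h2w hdw (hs d hd) ?_⟩
  have h3 := H30MQ.same_sign (g := g) (σ := τ) hg (s := s d) (hσ d hd)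
  exact h3

end Main

end H76OD
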